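import Mathlib
import Pool.Agent.R408.HSM.Core
import Pool.Agent.Y215.SK.FinA
import Pool.Agent.Y215.SK.FinB

set_option autoImplicit false

/-! # Sequences of points with few arithmetic degrees of freedom on varieties without rational curves -/

namespace Pool.Agent.R408.SML

open MvPolynomial Pool.Agent.Helper259.AbsHt Pool.Agent.H533R3.SL Pool.Agent.Y215.SP
  Pool.Agent.Y215.SK Pool.Agent.TH717.GO Pool.Agent.R870 Pool.Agent.R408.HSM

variable {n N r : ℕ}

/-- the vector `∑ u_j(m) p_j(a(m))` -/
noncomputable def seqPt {I : Type} (u : Fin r → I → Qbarˣ)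
    (p : Fin r → Fin (n + 1) → Polynomial Qbar) (a : I → Qbar) (m : I) : Fin (n + 1) → Qbar :=
  fun b => ∑ j, (u j m : Qbar) * (p j b).eval (a m)

/-- the points with coordinates `∑ u_j(m) p_j(a(m))`, `m ∈ I`, on the zero set of the `P_i` -/
def seqPts {k : Type} [Field k] [Algebra k Qbar] (P : Fin N → MvPolynomial (Fin (n + 1)) k)
    {I : Type} (u : Fin r → I → Qbarˣ) (p : Fin r → Fin (n + 1) → Polynomial Qbar)
    (a : I → Qbar) : Set (Projectivization Qbar (Fin (n + 1) → Qbar)) :=
  {Q | ∃ m, (∀ i, aeval (seqPt u p a m) (P i) = 0) ∧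
    ∃ h : seqPt u p a m ≠ 0, Q = Projectivization.mk Qbar (seqPt u p a m) h}

/-- a rational curve meets a variety without rational curves in finitely many points -/
theorem curve_fin {k : Type} [Field k] [NumberField k] (σ : k →+* ℂ) [Algebra k Qbar]
    (P : Fin N → MvPolynomial (Fin (n + 1)) k) (h : NoRatC σ (Set.range P))
    (q : Fin (n + 1) → Polynomial Qbar) :
    {Q : Projectivization Qbar (Fin (n + 1) → Qbar) | ∃ a : Qbar,
      (∀ i, aeval (fun b => (q b).eval a) (P i) = 0) ∧
      ∃ h : (fun b => (q b).eval a) ≠ 0, Q = Projectivization.mk Qbar _ h}.Finite := by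
  classical
  have key : ∀ (w : Qbar) (p : Fin (n + 1) → Polynomial Qbar) (i : Fin N),
      Polynomial.eval w (aeval p (P i)) = aeval (fun b => (p b).eval w) (P i) := by
    intro w p i
    rw [MvPolynomial.aeval_def, MvPolynomial.aeval_def]
    show Polynomial.evalRingHom w _ = _
    rw [MvPolynomial.hom_eval₂]
    congr 1
    refine RingHom.ext fun x => ?_
    rw [RingHom.comp_apply, Polynomial.algebraMap_apply]
    show Polynomial.eval w (Polynomial.C _) = _
    rw [Polynomial.eval_C]
  by_cases hA : {a : Qbar | ∀ i, aeval (fun b => (q b).eval a) (P i) = 0}.Finite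
  · refine (hA.biUnion (t := fun a => {Q : Projectivization Qbar (Fin (n + 1) → Qbar) |
      ∃ h : (fun b => (q b).eval a) ≠ 0, Q = Projectivization.mk Qbar _ h}) fun a _ => ?_).subset ?_
    · refine Set.Subsingleton.finite ?_
      rintro Q ⟨h1, rfl⟩ Q' ⟨h2, rfl⟩
      rfl
    · rintro Q ⟨a, h1, h2⟩
      rw [Set.mem_iUnion₂]
      exact ⟨a, h1, h2⟩
  · have hz : ∀ i, (aeval q (P i) : Polynomial Qbar) = 0 := by
      intro i
      refine Polynomial.eq_zero_of_infinite_isRoot _ (Set.Infinite.mono ?_ hA)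
      intro a ha
      show Polynomial.eval a _ = 0
      rw [key]
      exact ha i
    refine Set.Subsingleton.finite ?_
    rintro Q ⟨a, ha1, ha2, rfl⟩ Q' ⟨b, hb1, hb2, rfl⟩
    let s : Polynomial Qbar := Polynomial.X + Polynomial.C (b - 1)
    let q' : Fin (n + 1) → Polynomial Qbar := fun i => (q i).comp s
    have hev : ∀ i z, (q' i).eval z = (q i).eval (z + (b - 1)) := by
      intro i z
      simp [q', s]
    have h1 := noRat_all σ (Set.range P) h (Finset.univ.biUnion fun i => (q' i).support).card Qbar q'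
      (Finset.univ.biUnion fun i => (q' i).support) le_rfl
      (fun i m hm => Finset.mem_biUnion.2 ⟨i, Finset.mem_univ _, hm⟩) (by
        rintro _ ⟨i, rfl⟩
        apply Polynomial.funext
        intro z
        rw [key, Polynomial.eval_zero]
        have h2 := congrArg (Polynomial.eval (z + (b - 1))) (hz i)
        rw [key, Polynomial.eval_zero] at h2
        rw [← h2]
        congr 2
        funext c
        exact hev c z)
      (by rw [map_one]; exact one_ne_zero)
    have h2 : ∀ i j, (q i).eval a * (q j).eval b = (q j).eval a * (q i).eval b := by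
      intro i j
      have h3 := congrArg (Polynomial.eval (a - (b - 1))) (h1 i j)
      rw [Polynomial.eval_mul, Polynomial.eval_mul, Polynomial.eval_C, Polynomial.eval_C, hev, hev,
        hev, hev] at h3
      have e1 : a - (b - 1) + (b - 1) = a := by ring
      have e2 : (1 : Qbar) + (b - 1) = b := by ring
      rw [e1, e2] at h3
      exact h3
    obtain ⟨i0, hi0⟩ := Function.ne_iff.1 hb2
    have hi0' : (q i0).eval b ≠ 0 := hi0
    rw [Projectivization.mk_eq_mk_iff']
    refine ⟨(q i0).eval a / (q i0).eval b, ?_⟩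
    funext i
    rw [Pi.smul_apply, smul_eq_mul, div_mul_eq_mul_div, div_eq_iff hi0']
    have := h2 i0 i
    linear_combination this

/-- heights of values of polynomials -/
theorem eval_height (p : Polynomial Qbar) : ∃ C : ℝ, 0 ≤ C ∧ ∀ a : Qbar,
    h1 (p.eval a) ≤ C * (1 + h1 a) := by
  refine ⟨(p.support.card * Real.log 2 + ∑ i ∈ p.support, h1 (p.coeff i)) +
    ∑ i ∈ p.support, (i : ℝ), ?_, fun a => ?_⟩
  · have h0 : 0 ≤ Real.log 2 := Real.log_nonneg (by norm_num)
    have h1' : 0 ≤ ∑ i ∈ p.support, h1 (p.coeff i) := Finset.sum_nonneg fun i _ => h1_nonneg _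
    positivity
  · rw [Polynomial.eval_eq_sum, Polynomial.sum_def]
    have h2 := h1_sum_le p.support fun i => p.coeff i * a ^ i
    have h3 : ∑ i ∈ p.support, h1 (p.coeff i * a ^ i) ≤
        ∑ i ∈ p.support, h1 (p.coeff i) + (∑ i ∈ p.support, (i : ℝ)) * h1 a := by
      rw [Finset.sum_mul, ← Finset.sum_add_distrib]
      refine Finset.sum_le_sum fun i _ => ?_
      refine (h1_mul_le _ _).trans ?_
      rw [h1_pow]
    have h4 : 0 ≤ h1 a := h1_nonneg a
    have h0 : 0 ≤ Real.log 2 := Real.log_nonneg (by norm_num)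
    have h5 : 0 ≤ ∑ i ∈ p.support, h1 (p.coeff i) := Finset.sum_nonneg fun i _ => h1_nonneg _
    have h6 : (0 : ℝ) ≤ ∑ i ∈ p.support, (i : ℝ) := by positivity
    have h7 : 0 ≤ p.support.card * Real.log 2 := by positivity
    nlinarith [mul_nonneg h7 h4, mul_nonneg h5 h4]

/-- two multipliers have a ratio with finitely many values, or one whose height grows faster than
the height of the parameter -/
def Separated {I : Type} (u v : I → Qbarˣ) (a : I → Qbar) : Prop :=
  (Set.range fun m => (u m / v m : Qbar)).Finite ∨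
    ∀ C : ℝ, {m | h1 (u m / v m : Qbar) ≤ C * (1 + h1 (a m))}.Finite

/-- **Main theorem.** -/
theorem seq_finite {k : Type} [Field k] [NumberField k] (σ : k →+* ℂ) [Algebra k Qbar]
    (P : Fin N → MvPolynomial (Fin (n + 1)) k) (hP : ∀ i, ∃ e, (P i).IsHomogeneous e)
    (h : NoRatC σ (Set.range P)) (Γ : Subgroup Qbarˣ) (hΓ : Γ.FG) {I : Type}
    (u : Fin r → I → Qbarˣ) (hu : ∀ j m, u j m ∈ DivHull Γ)
    (p : Fin r → Fin (n + 1) → Polynomial Qbar) (a : I → Qbar)
    (hs : ∀ i j, Separated (u i) (u j) a) : (seqPts P u p a).Finite := by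
  classical
  obtain ⟨C, hC⟩ := mult_bound (r := r) P hP 1 ⟨0, MvPolynomial.isHomogeneous_one _ _⟩
    (fun L _ _ c l hz hc => (no_cur σ P h c l hz hc).elim) Γ hΓ
  let V : I → Fin r → Fin (n + 1) → Qbar := fun m j b => (p j b).eval (a m)
  have hpt : ∀ m, psum Finset.univ (fun j => u j m) (V m) = seqPt u p a m := fun m => rfl
  -- the height of the coefficients
  obtain ⟨D, hD0, hD⟩ : ∃ D : ℝ, 0 ≤ D ∧ ∀ m, hV (V m) ≤ D * (1 + h1 (a m)) := by
    choose D hD0 hD using fun q : Fin r × Fin (n + 1) => eval_height (p q.1 q.2)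
    refine ⟨∑ q, D q, Finset.sum_nonneg fun q _ => hD0 q, fun m => ?_⟩
    refine (height_le_sum _).trans ?_
    rw [Finset.sum_mul]
    exact Finset.sum_le_sum fun q _ => hD q (a m)
  let Q : Finset (Fin r) → Set (Projectivization Qbar (Fin (n + 1) → Qbar)) := fun J =>
    {x | ∃ m, (∀ i, aeval (seqPt u p a m) (P i) = 0) ∧ Good J (fun j => u j m) (V m) ∧
      absLogHeight (fun j : J => (u j m : Qbar)) ≤ C * (1 + hV (V m)) ∧
      ∃ h : seqPt u p a m ≠ 0, x = Projectivization.mk Qbar (seqPt u p a m) h}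
  have hcov : seqPts P u p a ⊆ ⋃ J, Q J := by
    rintro x ⟨m, h1, h2, rfl⟩
    obtain ⟨J, hJ1, hJ2⟩ := hC (fun j => u j m) (V m) (fun j => hu j m)
      ⟨h2, h1, by rw [map_one]; exact one_ne_zero⟩
    rw [Set.mem_iUnion]
    exact ⟨J, m, h1, hJ1, hJ2, h2, rfl⟩
  refine (Set.finite_iUnion fun J => ?_).subset hcov
  by_cases hfast : ∃ i ∈ J, ∃ j ∈ J,
      ∀ C : ℝ, {m | h1 (u i m / u j m : Qbar) ≤ C * (1 + h1 (a m))}.Finite
  · obtain ⟨i, hi, j, hj, hf⟩ := hfast
    refine ((hf (|C| * (1 + D))).biUnion (t := fun m =>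
      {x : Projectivization Qbar (Fin (n + 1) → Qbar) |
        ∃ h : seqPt u p a m ≠ 0, x = Projectivization.mk Qbar (seqPt u p a m) h})
      fun m _ => ?_).subset ?_
    · refine Set.Subsingleton.finite ?_
      rintro x ⟨h1, rfl⟩ y ⟨h2, rfl⟩
      rfl
    · rintro x ⟨m, -, -, h3, h4⟩
      rw [Set.mem_iUnion₂]
      refine ⟨m, ?_, h4⟩
      have h5 := h1_ratio_le (fun j : J => (u j m : Qbar)) ⟨i, hi⟩ ⟨j, hj⟩ (u j m).ne_zero
      show h1 (u i m / u j m : Qbar) ≤ _
      refine h5.trans (h3.trans ?_)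
      have h6 := hD m
      have h7 : 0 ≤ h1 (a m) := h1_nonneg _
      have h8 : 0 ≤ hV (V m) := absLogHeight_nonneg _
      have h9 : C * (1 + hV (V m)) ≤ |C| * (1 + hV (V m)) :=
        mul_le_mul_of_nonneg_right (le_abs_self C) (by linarith)
      have h10 : |C| * (1 + hV (V m)) ≤ |C| * ((1 + D) * (1 + h1 (a m))) :=
        mul_le_mul_of_nonneg_left (by nlinarith) (abs_nonneg C)
      calc _ ≤ _ := h9
        _ ≤ _ := h10
        _ = _ := by ring
  · push Not at hfast
    rcases J.eq_empty_or_nonempty with rfl | ⟨j0, hj0⟩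
    · refine Set.Finite.subset Set.finite_empty ?_
      rintro x ⟨m, -, ⟨-, b, hb⟩, -⟩
      exact hb (by simp [Pool.Agent.Y215.SK.psum])
    · -- the ratios take finitely many values
      have hfin : ∀ j ∈ J, (Set.range fun m => (u j m / u j0 m : Qbar)).Finite := by
        intro j hj
        rcases hs j j0 with h5 | h5
        · exact h5
        · obtain ⟨c, hc⟩ := hfast j hj j0 hj0
          exact absurd (h5 c) hc
      let S : Fin r → Set Qbar := fun j =>
        if j ∈ J then Set.range fun m => (u j m / u j0 m : Qbar) else {0}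
      have hS : ∀ j, (S j).Finite := by
        intro j
        by_cases hj : j ∈ J
        · simp only [S, if_pos hj]
          exact hfin j hj
        · simp only [S, if_neg hj]
          exact Set.finite_singleton _
      have hW : {w : Fin r → Qbar | ∀ j, w j ∈ S j}.Finite := Set.Finite.pi' hS
      refine (hW.biUnion (t := fun w => {x : Projectivization Qbar (Fin (n + 1) → Qbar) |
        ∃ c : Qbar, (∀ i, aeval (fun b => (∑ j ∈ J, Polynomial.C (w j) * p j b).eval c) (P i) = 0) ∧
          ∃ h : (fun b => (∑ j ∈ J, Polynomial.C (w j) * p j b).eval c) ≠ 0,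
            x = Projectivization.mk Qbar _ h}) fun w _ => curve_fin σ P h _).subset ?_
      rintro x ⟨m, h1, hgood, -, h3, rfl⟩
      rw [Set.mem_iUnion₂]
      refine ⟨fun j => if j ∈ J then (u j m / u j0 m : Qbar) else 0, ?_, a m, ?_⟩
      · intro j
        by_cases hj : j ∈ J
        · simp only [S, if_pos hj]
          exact ⟨m, rfl⟩
        · simp only [S, if_neg hj]
          rfl
      · obtain ⟨c, hc0, hc⟩ := good_prop J (fun j => u j m) (V m) hgood h3
        have hne : (u j0 m : Qbar) ≠ 0 := (u j0 m).ne_zero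
        have e : (fun b => (∑ j ∈ J, Polynomial.C
            (if j ∈ J then (u j m / u j0 m : Qbar) else 0) * p j b).eval (a m)) =
            ((u j0 m : Qbar)⁻¹ * c) • seqPt u p a m := by
          rw [← hpt m, mul_smul, ← hc]
          funext b
          rw [Pi.smul_apply, smul_eq_mul, Polynomial.eval_finsetSum]
          unfold Pool.Agent.Y215.SK.psum
          rw [Finset.mul_sum]
          refine Finset.sum_congr rfl fun j hj => ?_
          rw [if_pos hj, Polynomial.eval_mul, Polynomial.eval_C, div_eq_mul_inv]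
          show _ = (u j0 m : Qbar)⁻¹ * ((u j m : Qbar) * (p j b).eval (a m))
          ring
        have hs0 : (u j0 m : Qbar)⁻¹ * c ≠ 0 := mul_ne_zero (inv_ne_zero hne) hc0
        refine ⟨fun i => ?_, ?_⟩
        · rw [e]
          obtain ⟨d, hd⟩ := hP i
          have h5 := Pool.Agent.H458.Sp.aeval_smul_homog (P i) hd ((u j0 m : Qbar)⁻¹ * c)
            (seqPt u p a m)
          rw [h1 i, mul_zero] at h5
          exact h5
        · have h6 : (fun b => (∑ j ∈ J, Polynomial.C
            (if j ∈ J then (u j m / u j0 m : Qbar) else 0) * p j b).eval (a m)) ≠ 0 := by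
            rw [e]
            exact smul_ne_zero hs0 h3
          refine ⟨h6, ?_⟩
          rw [Projectivization.mk_eq_mk_iff']
          refine ⟨((u j0 m : Qbar)⁻¹ * c)⁻¹, ?_⟩
          rw [e, smul_smul, inv_mul_cancel₀ hs0, one_smul]

end Pool.Agent.R408.SML
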