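import Mathlib
import Pool.Agent.R408.SML.Core

set_option autoImplicit false

/-! # Partial orbits of matrices on varieties without rational curves -/

namespace Pool.Agent.R408.SML

open MvPolynomial Pool.Agent.Helper259.AbsHt Pool.Agent.H533R3.SL Pool.Agent.Y215.SP
  Pool.Agent.Y215.SK Pool.Agent.TH717.GO Pool.Agent.R870 Pool.Agent.R408.HSM

variable {n N r : ℕ}

/-- the theorem of Kronecker -/
theorem pow_eq_one_of_h1 (x : Qbar) (hx : x ≠ 0) (h : h1 x = 0) : ∃ m : ℕ, 0 < m ∧ x ^ m = 1 := by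
  obtain ⟨L, hL, y, -, rfl, -⟩ := exists_lift2 x x
  have hfin := Northcott.finite_le (h := fun z : L => Height.logHeight₁ z) (0 : ℝ)
  have hy : Height.logHeight₁ y = 0 := by
    rw [h1_val, div_eq_zero_iff] at h
    exact h.resolve_right (finrank_pos' L).ne'
  have hmem : ∀ m : ℕ, y ^ m ∈ {z : L | Height.logHeight₁ z ≤ 0} := by
    intro m
    show Height.logHeight₁ (y ^ m) ≤ 0
    rw [Height.logHeight₁_pow, hy, mul_zero]
  have hy0 : y ≠ 0 := by
    rintro rfl
    exact hx rfl
  obtain ⟨a, -, b, -, hab, he⟩ := Set.infinite_univ.exists_ne_map_eq_of_mapsTo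
    (f := fun m : ℕ => y ^ m) (fun m _ => hmem m) hfin
  have key : ∀ a b : ℕ, a < b → y ^ a = y ^ b → ∃ m : ℕ, 0 < m ∧ (y : Qbar) ^ m = 1 := by
    intro a b hab he
    refine ⟨b - a, by omega, ?_⟩
    have h1 : y ^ a * y ^ (b - a) = y ^ a * 1 := by
      rw [← pow_add, mul_one, he]
      congr 1
      omega
    have h2 := mul_left_cancel₀ (pow_ne_zero a hy0) h1
    exact_mod_cast congrArg (fun z : L => (z : Qbar)) h2
  rcases lt_or_gt_of_ne hab with h1 | h1
  · exact key a b h1 he
  · exact key b a h1 he.symm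

theorem h1_nat (m : ℕ) (hm : 1 ≤ m) : h1 (m : Qbar) = Real.log m := by
  have h := absLogHeight_int ![(m : ℤ), 1] (by
    refine Int.eq_one_of_dvd_one ?_ ?_
    · rw [← Finset.normalize_gcd]
      exact Int.nonneg_of_normalize_eq_self (by rw [normalize_idem])
    · exact Finset.gcd_dvd (Finset.mem_univ (1 : Fin 2)))
  have e : (fun i => ((![(m : ℤ), 1] i : ℤ) : Qbar)) = ![(m : Qbar), 1] := by
    funext i
    fin_cases i <;> simp
  rw [e] at h
  unfold h1
  rw [h]
  congr 1
  have h2 : (⨆ i, |![(m : ℤ), 1] i| : ℤ) = m := by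
    apply le_antisymm
    · refine ciSup_le fun i => ?_
      fin_cases i
      · simp
      · simp
        exact_mod_cast hm
    · refine le_ciSup_of_le (Set.finite_range _).bddAbove 0 ?_
      simp
  rw [h2]
  simp

/-- powers of an algebraic number: finitely many values or large height -/
theorem separated_pow (x y : Qbarˣ) :
    Separated (fun m : ℕ => x ^ m) (fun m => y ^ m) (fun m : ℕ => (m : Qbar)) := by
  have hr : ∀ m : ℕ, ((x ^ m : Qbarˣ) / (y ^ m : Qbarˣ) : Qbar) = ((x / y : Qbar)) ^ m := by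
    intro m
    rw [Units.val_pow_eq_pow_val, Units.val_pow_eq_pow_val, div_pow]
  have hne : (x / y : Qbar) ≠ 0 := div_ne_zero x.ne_zero y.ne_zero
  unfold Separated
  simp only [hr]
  by_cases h : h1 (x / y : Qbar) = 0
  · left
    obtain ⟨d, hd, h2⟩ := pow_eq_one_of_h1 _ hne h
    refine (Set.finite_range (fun i : Fin d => (x / y : Qbar) ^ (i : ℕ))).subset ?_
    rintro _ ⟨m, rfl⟩
    refine ⟨⟨m % d, Nat.mod_lt _ hd⟩, ?_⟩
    show (x / y : Qbar) ^ (m % d) = (x / y : Qbar) ^ m
    conv_rhs => rw [← Nat.div_add_mod m d, pow_add, pow_mul, h2, one_pow, one_mul]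
  · right
    intro C
    have hpos : 0 < h1 (x / y : Qbar) := lt_of_le_of_ne (h1_nonneg _) (Ne.symm h)
    obtain ⟨c, hc⟩ : ∃ c, c = h1 (x / y : Qbar) := ⟨_, rfl⟩
    rw [← hc] at hpos
    have hev : ∀ᶠ m : ℕ in Filter.atTop, 0 < (m : ℝ) * c - |C| * (1 + Real.log m) := by
      have h3 : (fun m : ℕ => |C| * (1 + Real.log m)) =o[Filter.atTop] fun m : ℕ => (m : ℝ) * c := by
        have h4 : (fun x : ℝ => Real.log x) =o[Filter.atTop] fun x : ℝ => x :=
          Real.isLittleO_log_id_atTop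
        have h5 := h4.comp_tendsto (tendsto_natCast_atTop_atTop (R := ℝ))
        have h6 : (fun _ : ℕ => (1 : ℝ)) =o[Filter.atTop] fun m : ℕ => (m : ℝ) := by
          rw [Asymptotics.isLittleO_const_left]
          right
          exact tendsto_norm_atTop_atTop.comp tendsto_natCast_atTop_atTop
        have h7 := (h6.add h5).const_mul_left |C|
        exact h7.trans_isBigO (by
          refine Asymptotics.IsBigO.of_bound (c⁻¹) (Filter.Eventually.of_forall fun m => ?_)
          rw [norm_mul, Real.norm_of_nonneg hpos.le, mul_comm (‖(m : ℝ)‖) c, ← mul_assoc,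
            inv_mul_cancel₀ hpos.ne', one_mul])
      filter_upwards [h3.bound (by norm_num : (0 : ℝ) < 1 / 2), Filter.eventually_ge_atTop 1]
        with m h8 h9
      have h10 : (0 : ℝ) < (m : ℝ) * c := mul_pos (by exact_mod_cast h9) hpos
      rw [Real.norm_of_nonneg h10.le] at h8
      have h11 := (le_abs_self _).trans (Real.norm_eq_abs _ ▸ h8)
      linarith
    obtain ⟨m0, hm0⟩ := Filter.eventually_atTop.1 hev
    refine (Set.finite_le_nat (m0 + 1)).subset ?_
    intro m hm
    by_contra hcon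
    have h11 : m0 + 1 < m := not_le.1 hcon
    have h12 := hm0 m (by omega)
    have h13 : h1 ((x / y : Qbar) ^ m) ≤ C * (1 + h1 (m : Qbar)) := hm
    rw [h1_pow, ← hc, h1_nat m (by omega)] at h13
    have h14 : 0 ≤ Real.log m := Real.log_natCast_nonneg m
    have h15 : C * (1 + Real.log m) ≤ |C| * (1 + Real.log m) :=
      mul_le_mul_of_nonneg_right (le_abs_self C) (by linarith)
    linarith

/-- the vector `M A^m v` -/
noncomputable def orbVec (A : Matrix.GeneralLinearGroup (Fin r) Qbar)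
    (M : Matrix (Fin (n + 1)) (Fin r) Qbar) (v : Fin r → Qbar) (m : ℤ) : Fin (n + 1) → Qbar :=
  M.mulVec (((A ^ m : Matrix.GeneralLinearGroup (Fin r) Qbar) : Matrix (Fin r) (Fin r) Qbar).mulVec
    v)

/-- the points with homogeneous coordinates `M A^m v`, `m ∈ ℤ`, on the zero set of the `P_i` -/
def orbPts {k : Type} [Field k] [Algebra k Qbar] (P : Fin N → MvPolynomial (Fin (n + 1)) k)
    (A : Matrix.GeneralLinearGroup (Fin r) Qbar) (M : Matrix (Fin (n + 1)) (Fin r) Qbar)
    (v : Fin r → Qbar) : Set (Projectivization Qbar (Fin (n + 1) → Qbar)) :=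
  {Q | ∃ m : ℤ, (∀ i, aeval (orbVec A M v m) (P i) = 0) ∧
    ∃ h : orbVec A M v m ≠ 0, Q = Projectivization.mk Qbar (orbVec A M v m) h}

/-- an orbit in terms of exponential polynomials -/
theorem orb_rep (A : Matrix.GeneralLinearGroup (Fin r) Qbar)
    (M : Matrix (Fin (n + 1)) (Fin r) Qbar) (v : Fin r → Qbar) :
    ∃ (s : ℕ) (ν : Fin s → Qbarˣ) (p : Fin s → Fin (n + 1) → Polynomial Qbar), ∀ m : ℕ,
      orbVec A M v (m : ℤ) = seqPt (fun j (m : ℕ) => ν j ^ m) p (fun m : ℕ => (m : Qbar)) m := by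
  classical
  let f : Module.End Qbar (Fin r → Qbar) := Matrix.toLin' (A : Matrix (Fin r) (Fin r) Qbar)
  obtain ⟨S, -, hS⟩ := seq_rep f (⊤ : Subgroup Qbarˣ) (fun μ hμ => by
    have h0 : μ ≠ 0 := by
      rintro rfl
      obtain ⟨w, hw⟩ := hμ.exists_hasEigenvector
      have h1 := hw.apply_eq_smul
      rw [zero_smul] at h1
      apply hw.2
      have h2 : (A : Matrix (Fin r) (Fin r) Qbar).mulVec w = 0 := by
        have := h1
        rwa [Matrix.toLin'_apply] at this
      have h3 := congrArg (((A⁻¹ : Matrix.GeneralLinearGroup (Fin r) Qbar) :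
        Matrix (Fin r) (Fin r) Qbar).mulVec) h2
      rw [Matrix.mulVec_mulVec, Matrix.mulVec_zero, ← Units.val_mul, inv_mul_cancel,
        Units.val_one, Matrix.one_mulVec] at h3
      exact h3
    exact ⟨⟨Units.mk0 μ h0, trivial⟩, rfl⟩)
  choose a ha hae using fun b : Fin (n + 1) =>
    hS ((LinearMap.proj b).comp (Matrix.toLin' M)) v
  refine ⟨S.card, fun j => ((S.equivFin.symm j : (⊤ : Subgroup Qbarˣ)) : Qbarˣ),
    fun j b => a b (S.equivFin.symm j), fun m => ?_⟩
  funext b
  have h1 := hae b m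
  have h2 : (((LinearMap.proj b).comp (Matrix.toLin' M)) ((f ^ m) v) : Qbar) =
      orbVec A M v (m : ℤ) b := by
    have h3 : f ^ m = Matrix.toLin' ((A : Matrix (Fin r) (Fin r) Qbar) ^ m) :=
      (Matrix.toLin'_pow _ _).symm
    rw [h3]
    show (Matrix.toLin' M (Matrix.toLin' ((A : Matrix (Fin r) (Fin r) Qbar) ^ m) v)) b = _
    rw [Matrix.toLin'_apply, Matrix.toLin'_apply]
    unfold orbVec
    rw [zpow_natCast, Units.val_pow_eq_pow_val]
  rw [← h2, h1]
  unfold seqPt
  rw [← Finset.sum_coe_sort, ← Equiv.sum_comp S.equivFin.symm]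
  refine Finset.sum_congr rfl fun j _ => ?_
  rw [Units.val_pow_eq_pow_val, mul_comm]

/-- Sequences `∑ u_j(m) p_j(a(m))` with separated multipliers from groups of finite rank have
finitely many points on the zero set of the `P_i`. -/
def SequencesMeetFinitely {k : Type} [Field k] (P : Fin N → MvPolynomial (Fin (n + 1)) k) : Prop :=
  ∀ [Algebra k Qbar] (Γ : Subgroup Qbarˣ), Γ.FG → ∀ (I : Type) (r : ℕ) (u : Fin r → I → Qbarˣ)
    (p : Fin r → Fin (n + 1) → Polynomial Qbar) (a : I → Qbar), (∀ j m, u j m ∈ DivHull Γ) →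
    (∀ i j, Separated (u i) (u j) a) → (seqPts P u p a).Finite

/-- The orbit of a matrix has finitely many points on the zero set of the `P_i`. -/
def OrbitsMeetFinitely {k : Type} [Field k] (P : Fin N → MvPolynomial (Fin (n + 1)) k) : Prop :=
  ∀ [Algebra k Qbar] (r : ℕ) (A : Matrix.GeneralLinearGroup (Fin r) Qbar)
    (M : Matrix (Fin (n + 1)) (Fin r) Qbar) (v : Fin r → Qbar), (orbPts P A M v).Finite

/-- **Partial orbits.** -/
theorem orb_finite {k : Type} [Field k] (P : Fin N → MvPolynomial (Fin (n + 1)) k)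
    (hseq : SequencesMeetFinitely P) : OrbitsMeetFinitely P := by
  classical
  intro _ r A M v
  have key : ∀ B : Matrix.GeneralLinearGroup (Fin r) Qbar,
      {Q : Projectivization Qbar (Fin (n + 1) → Qbar) | ∃ m : ℕ,
        (∀ i, aeval (orbVec B M v (m : ℤ)) (P i) = 0) ∧
        ∃ h : orbVec B M v (m : ℤ) ≠ 0,
          Q = Projectivization.mk Qbar (orbVec B M v (m : ℤ)) h}.Finite := by
    intro B
    obtain ⟨s, ν, p, hp⟩ := orb_rep B M v
    have hfin := hseq (Subgroup.closure (Set.range ν))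
      ((Subgroup.fg_iff _).2 ⟨Set.range ν, rfl, Set.finite_range ν⟩) ℕ s
      (fun j (m : ℕ) => ν j ^ m) p (fun m : ℕ => (m : Qbar)) (fun j m => by
        refine ⟨1, one_pos, ?_⟩
        rw [pow_one]
        exact Subgroup.pow_mem _ (Subgroup.subset_closure (Set.mem_range_self j)) m)
      (fun i j => separated_pow (ν i) (ν j))
    refine hfin.subset ?_
    rintro Q ⟨m, h1, h2, h3⟩
    refine ⟨m, fun i => ?_, ?_⟩
    · rw [← hp m]
      exact h1 i
    · have h4 : seqPt (fun j (m : ℕ) => ν j ^ m) p (fun m : ℕ => (m : Qbar)) m ≠ 0 := by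
        rw [← hp m]
        exact h2
      exact ⟨h4, h3.trans (mk_congr h2 h4 (hp m))⟩
  refine ((key A).union (key A⁻¹)).subset ?_
  rintro Q ⟨m, h1, h2, h3⟩
  rcases le_total 0 m with hm | hm
  · obtain ⟨j, rfl⟩ := Int.eq_ofNat_of_zero_le hm
    exact Or.inl ⟨j, h1, h2, h3⟩
  · obtain ⟨j, hj⟩ := Int.eq_ofNat_of_zero_le (neg_nonneg.2 hm)
    have h5 : m = -(j : ℤ) := by omega
    subst h5
    have e : orbVec A M v (-(j : ℤ)) = orbVec A⁻¹ M v (j : ℤ) := by
      unfold orbVec
      rw [inv_zpow']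
    refine Or.inr ⟨j, fun i => ?_, ?_⟩
    · rw [← e]
      exact h1 i
    · have h4 : orbVec A⁻¹ M v (j : ℤ) ≠ 0 := by
        rw [← e]
        exact h2
      exact ⟨h4, h3.trans (mk_congr h2 h4 e)⟩

/-- a rational curve gives an orbit -/
theorem orb_conv {k : Type} [Field k] [NumberField k] (σ : k →+* ℂ)
    (P : Fin N → MvPolynomial (Fin (n + 1)) k) (h : OrbitsMeetFinitely P) :
    NoRatC σ (Set.range P) := by
  classical
  by_contra hno
  obtain ⟨r, i1, w, h1, h2⟩ := curve_of σ P hno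
  have hinf : (Set.range fun m : ℕ => (2 : Qbar) ^ m).Infinite := by
    refine Set.infinite_range_of_injective ?_
    intro a b hab
    have h1 : (2 : Qbar) ^ a = 2 ^ b := hab
    have h2 : ((2 ^ a : ℕ) : Qbar) = ((2 ^ b : ℕ) : Qbar) := by
      push_cast
      exact h1
    have h3 : (2 : ℕ) ^ a = 2 ^ b := by exact_mod_cast h2
    exact Nat.pow_right_injective le_rfl h3
  let D : Matrix.GeneralLinearGroup (Fin r) Qbar :=
    { val := Matrix.diagonal fun j => (2 : Qbar) ^ (j : ℕ)
      inv := Matrix.diagonal fun j => ((2 : Qbar) ^ (j : ℕ))⁻¹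
      val_inv := by
        rw [Matrix.diagonal_mul_diagonal, ← Matrix.diagonal_one]
        congr 1
        funext j
        exact mul_inv_cancel₀ (pow_ne_zero _ two_ne_zero)
      inv_val := by
        rw [Matrix.diagonal_mul_diagonal, ← Matrix.diagonal_one]
        congr 1
        funext j
        exact inv_mul_cancel₀ (pow_ne_zero _ two_ne_zero) }
  have hfin := h r D (Matrix.of fun b j => w j b) (fun _ => 1)
  refine (h2 _ hinf) (hfin.subset ?_)
  rintro Q ⟨_, ⟨m, rfl⟩, -, h3, h4⟩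
  have e : orbVec D (Matrix.of fun b j => w j b) (fun _ => 1) (m : ℤ) = cpt w ((2 : Qbar) ^ m) := by
    funext b
    unfold orbVec cpt
    rw [zpow_natCast, Units.val_pow_eq_pow_val]
    show (Matrix.of fun b j => w j b).mulVec
      (((Matrix.diagonal fun j : Fin r => (2 : Qbar) ^ (j : ℕ)) ^ m).mulVec fun _ => 1) b = _
    rw [Matrix.diagonal_pow]
    show ∑ j, w j b * ((Matrix.diagonal _).mulVec (fun _ => (1 : Qbar)) j) = _
    refine Finset.sum_congr rfl fun j _ => ?_
    rw [Matrix.mulVec_diagonal, Pi.pow_apply, mul_one, mul_comm, ← pow_mul, ← pow_mul,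
      mul_comm m]
  have h5 : orbVec D (Matrix.of fun b j => w j b) (fun _ => 1) (m : ℤ) ≠ 0 := by
    rw [e]
    exact h3
  refine ⟨(m : ℤ), fun i => ?_, h5, h4.trans (mk_congr h3 h5 e.symm)⟩
  rw [e]
  exact h1 _ i

end Pool.Agent.R408.SML
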